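import Mathlib

set_option autoImplicit false

namespace Pool.Agent.Results.MP_52d0c2_ag.No

open MvPolynomial

/-- The kernel of the algebra map sending the variable `u` to `f u`. -/
noncomputable def kerOf {σ A : Type} [CommRing A] [Algebra ℝ A] (f : σ → A) :
    Ideal (MvPolynomial σ ℝ) := RingHom.ker (aeval (R := ℝ) f)

section
variable {n : ℕ} (E : Fin n → Fin n → Prop) (κ : Fin n → ℕ)

/-- Indices `(j, k, a)` of the parameters: vertex, state, parent configuration. -/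
abbrev Par : Type := Σ j : Fin n, Fin (κ j) × ((i : {i // E i j}) → Fin (κ i))

/-- The ideal `J`; the variable `X none` is `z`. -/
noncomputable def J : Ideal (MvPolynomial (Option (Par E κ)) ℝ) :=
  Ideal.span {f | ∃ j a, f = ∑ k, X (some ⟨j, k, a⟩) - X none}

/-- The ideal `P_G`. -/
noncomputable def PG : Ideal (MvPolynomial ((i : Fin n) → Fin (κ i)) ℝ) :=
  kerOf fun u => Ideal.Quotient.mk (J E κ) (∏ j, X (some ⟨j, u j, fun i => u i⟩))

/-- The induced subgraph on `S` is perfect. -/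
def PerfectOn (S : Set (Fin n)) : Prop :=
  ∀ i ∈ S, ∀ a ∈ S, ∀ b ∈ S, E a i → E b i → a ≠ b → E a b ∨ E b a
end

/-- A prime ideal generated by binomials. -/
def IsToric {σ : Type} (I : Ideal (MvPolynomial σ ℝ)) : Prop :=
  I.IsPrime ∧ ∃ B, (∀ f ∈ B, ∃ a b, f = monomial a 1 - monomial b 1) ∧ I = Ideal.span B

lemma prime_det {σ : Type} {a b c d : σ} (h1 : b ≠ a) (h2 : b ≠ c) (h3 : b ≠ d) (h4 : c ≠ a)
    (h5 : d ≠ a) : Prime (X a * X b - X c * X d : MvPolynomial σ ℝ) := by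
  classical
  rw [sub_eq_add_neg]
  refine (irreducible_mul_X_add _ _ b (X_ne_zero _) (by simp [h1]) (fun h => ?_) ?_).prime
  · rw [vars_neg] at h
    have := vars_mul _ _ h
    simp [h2, h3] at this
  · rw [(X_prime (i := a)).irreducible.isRelPrime_iff_not_dvd]
    rintro ⟨q, hq⟩
    have := congrArg (eval fun v => if v = a then 0 else 1) hq
    simp [h4, h5] at this

def E0 (i j : Fin 4) : Prop := i < j ∧ j ≠ 1

instance : DecidableRel E0 := fun _ _ => inferInstanceAs (Decidable (_ ∧ _))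

def y {R : Type} [Add R] (x : (Fin 4 → Fin 2) → R) (a b : Fin 2) : R :=
  x ![a, b, 0, 0] + (x ![a, b, 0, 1] + x ![a, b, 1, 0] + x ![a, b, 1, 1])

lemma eta (u : Fin 4 → Fin 2) : ∃ a b c d, u = ![a, b, c, d] :=
  ⟨u 0, u 1, u 2, u 3, by ext i; fin_cases i <;> rfl⟩

lemma gen {L : Type} [Field L] (x : (Fin 4 → Fin 2) → L) (z : L)
    (hs : ∀ a b c, x ![a, b, c, 0] + x ![a, b, c, 1] ≠ 0) (hy : ∀ a b, y x a b ≠ 0)
    (hz : z ^ 4 = y x 0 0 + y x 0 1 + y x 1 0 + y x 1 1) (hT : z ^ 4 ≠ 0)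
    (hD : y x 0 0 * y x 1 1 - y x 0 1 * y x 1 0 = 0) :
    ∃ g : Option (Par E0 fun _ => 2) → L, (∀ j a, ∑ k, g (some ⟨j, k, a⟩) = g none) ∧
      ∀ u : Fin 4 → Fin 2, ∏ j, g (some ⟨j, u j, fun i => u i⟩) = x u := by
  let G : Fin 4 → Fin 2 → (Fin 4 → Fin 2) → L :=
    ![fun k _ => (y x k 0 + y x k 1) / z ^ 4, fun k _ => (y x 0 k + y x 1 k) / z ^ 4,
      fun k w => (x ![w 0, w 1, k, 0] + x ![w 0, w 1, k, 1]) / y x (w 0) (w 1),
      fun k w => x ![w 0, w 1, w 2, k] / (x ![w 0, w 1, w 2, 0] + x ![w 0, w 1, w 2, 1])]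
  have h1 : ∀ j w, G j 0 w + G j 1 w = 1 := by
    intro j w
    fin_cases j <;> simp only [G, Fin.reduceFinMk, Matrix.cons_val] <;> rw [← add_div]
    · rw [hz, div_eq_one_iff_eq (hz ▸ hT)]; ring
    · rw [hz, div_eq_one_iff_eq (hz ▸ hT)]; ring
    · rw [div_eq_one_iff_eq (hy _ _), y]; ring
    · exact div_self (hs _ _ _)
  refine ⟨fun o => o.elim z fun p =>
    z * G p.1 p.2.1 fun i => if h : E0 i p.1 then p.2.2 ⟨i, h⟩ else 0, fun j a => ?_, fun u => ?_⟩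
  · rw [Fin.sum_univ_two]
    simp only [Option.elim]
    rw [← mul_add, h1, mul_one]
  · obtain ⟨a, b, c, d, rfl⟩ := eta u
    have h2 : (y x a 0 + y x a 1) * (y x 0 b + y x 1 b) = z ^ 4 * y x a b := by
      rw [hz]
      fin_cases a <;> fin_cases b <;> simp only [Fin.zero_eta, Fin.mk_one]
      · linear_combination -hD
      · linear_combination hD
      · linear_combination hD
      · linear_combination -hD
    have := hs a b c
    have := hy a b
    have h3 : z ≠ 0 := fun h => hT (by simp [h])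
    rw [Fin.prod_univ_four]
    change z * ((y x a 0 + y x a 1) / z ^ 4) * (z * ((y x 0 b + y x 1 b) / z ^ 4)) *
      (z * ((x ![a, b, c, 0] + x ![a, b, c, 1]) / y x a b)) *
      (z * (x ![a, b, c, d] / (x ![a, b, c, 0] + x ![a, b, c, 1]))) = _
    field_simp
    linear_combination x ![a, b, c, d] * h2

lemma sub : y X 0 0 * y X 1 1 - y X 0 1 * y X 1 0 ∈ PG E0 fun _ => 2 := by
  let t : Par E0 (fun _ => 2) → _ := fun p => Ideal.Quotient.mk (J E0 fun _ => 2) (X (some p))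
  let z := Ideal.Quotient.mk (J E0 fun _ => 2) (X none)
  have h1 : ∀ j a, t ⟨j, 0, a⟩ + t ⟨j, 1, a⟩ = z := fun j a => by
    rw [← map_add, Ideal.Quotient.eq]
    exact Ideal.subset_span ⟨j, a, by rw [Fin.sum_univ_two]⟩
  let r : (j : Fin 4) → (Fin 4 → Fin 2) → {i // E0 i j} → Fin 2 := fun j u i => u i
  have h2 : ∀ a b c d, r 0 ![a, b, c, d] = r 0 0 ∧ r 1 ![a, b, c, d] = r 1 0 ∧
      r 2 ![a, b, c, d] = r 2 ![a, b, 0, 0] ∧ r 3 ![a, b, c, d] = r 3 ![a, b, c, 0] := by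
    decide
  have h3 : ∀ a b, y (fun u => ∏ j, t ⟨j, u j, r j u⟩) a b =
      t ⟨0, a, r 0 0⟩ * t ⟨1, b, r 1 0⟩ * z ^ 2 := fun a b => by
    simp only [y, Fin.prod_univ_four, Matrix.cons_val, (h2 _ _ _ _).1, (h2 _ _ _ _).2.1,
      (h2 _ _ 0 1).2.2.1, (h2 _ _ 1 _).2.2.1, (h2 _ _ _ 1).2.2.2]
    linear_combination t ⟨0, a, r 0 0⟩ * t ⟨1, b, r 1 0⟩ * (z * h1 2 (r 2 ![a, b, 0, 0]) +
      t ⟨2, 0, r 2 ![a, b, 0, 0]⟩ * h1 3 (r 3 ![a, b, 0, 0]) +
      t ⟨2, 1, r 2 ![a, b, 0, 0]⟩ * h1 3 (r 3 ![a, b, 1, 0]))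
  have h4 : ∀ a b, aeval (R := ℝ) (fun u : Fin 4 → Fin 2 => Ideal.Quotient.mk (J E0 fun _ => 2)
      (∏ j, X (some ⟨j, u j, fun i => u i⟩))) (y X a b) = _ := fun a b =>
    Eq.trans (by simp only [y, map_add, aeval_X, map_prod]; rfl) (h3 a b)
  rw [PG, kerOf, RingHom.mem_ker, map_sub, map_mul, map_mul, h4, h4, h4, h4]
  ring

noncomputable def lin (s : ℝ) : MvPolynomial (Fin 4 → Fin 2) ℝ →ₐ[ℝ] MvPolynomial (Fin 4 → Fin 2) ℝ :=
  aeval fun u => X u + if u 2 = 0 ∧ u 3 = 0 then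
    s • (X ![u 0, u 1, 0, 1] + X ![u 0, u 1, 1, 0] + X ![u 0, u 1, 1, 1]) else 0

lemma lin_lin (s : ℝ) : (lin s).comp (lin (-s)) = AlgHom.id ℝ _ := by
  ext1 u
  by_cases h : u 2 = 0 ∧ u 3 = 0 <;> simp [lin, h]
  ring

lemma eq_span (D : MvPolynomial (Fin 4 → Fin 2) ℝ) (hD : D = y X 0 0 * y X 1 1 - y X 0 1 * y X 1 0)
    (hp : Prime D) : PG E0 (fun _ => 2) = Ideal.span {D} := by
  refine le_antisymm (fun f hf => ?_) ((Ideal.span_singleton_le_iff_mem _).2 (hD ▸ sub))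
  have := (Ideal.span_singleton_prime hp.ne_zero).2 hp
  let A := MvPolynomial (Fin 4 → Fin 2) ℝ ⧸ Ideal.span {D}
  let L := AlgebraicClosure (FractionRing A)
  let π : MvPolynomial (Fin 4 → Fin 2) ℝ →ₐ[ℝ] L :=
    (IsScalarTower.toAlgHom ℝ A L).comp (Ideal.Quotient.mkₐ ℝ _)
  have h1 : ∀ f, π f = 0 ↔ D ∣ f := fun f => by
    rw [← Ideal.mem_span_singleton, ← Ideal.Quotient.eq_zero_iff_mem]
    exact map_eq_zero_iff ((algebraMap (FractionRing A) L).comp (algebraMap A _))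
      ((algebraMap (FractionRing A) L).injective.comp (IsFractionRing.injective A _))
  have h2 : ∀ f, eval (fun _ => 1) f ≠ 0 → π f ≠ 0 := fun f hf h => by
    obtain ⟨q, rfl⟩ := (h1 f).1 h
    simp [hD, y] at hf
  have h3 : ∀ a b, y (fun u => π (X u)) a b = π (y X a b) := fun a b => by simp [y]
  obtain ⟨z, hz⟩ := IsAlgClosed.exists_pow_nat_eq (π (y X 0 0 + y X 0 1 + y X 1 0 + y X 1 1))
    (n := 4) (by norm_num)
  obtain ⟨g, h4, h5⟩ := gen (fun u => π (X u)) z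
    (fun a b c => by rw [← map_add]; exact h2 _ (by simp))
    (fun a b => by rw [h3]; exact h2 _ (by simp [y]; norm_num))
    (by simp only [h3, hz, map_add]) (by rw [hz]; exact h2 _ (by simp [y]; norm_num))
    (by simp only [h3, ← map_mul, ← map_sub, ← hD, h1, dvd_refl])
  have h6 : J E0 (fun _ => 2) ≤ RingHom.ker (aeval (R := ℝ) g) := Ideal.span_le.2 (by
    rintro _ ⟨j, a, rfl⟩
    simp only [SetLike.mem_coe, RingHom.mem_ker, map_sub, map_sum, aeval_X, h4, sub_self])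
  have h7 : (Ideal.Quotient.liftₐ _ (aeval (R := ℝ) g) h6).comp
      (aeval (R := ℝ) fun u : Fin 4 → Fin 2 => Ideal.Quotient.mk (J E0 fun _ => 2)
        (∏ j, X (some ⟨j, u j, fun i => u i⟩))) = π := by
    ext1 u
    rw [AlgHom.comp_apply, aeval_X, ← h5]
    change aeval g _ = _
    simp only [map_prod, aeval_X]
  rw [Ideal.mem_span_singleton, ← h1, ← h7, AlgHom.comp_apply, (RingHom.mem_ker.1 hf :), map_zero]

/-- The complete DAG on four binary vertices minus the edge `0 → 1` is toric, but its non-sink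
subgraph `0 → 2 ← 1` is not perfect. -/
theorem result : ∃ (n : ℕ) (E : Fin n → Fin n → Prop) (κ : Fin n → ℕ),
    (∀ i j, E i j → i < j) ∧ (∀ i, 2 ≤ κ i) ∧
    (∃ ψ : MvPolynomial ((i : Fin n) → Fin (κ i)) ℝ ≃ₐ[ℝ] MvPolynomial ((i : Fin n) → Fin (κ i)) ℝ,
      (∀ u, (ψ (X u)).IsHomogeneous 1) ∧ IsToric ((PG E κ).map ψ)) ∧
    ¬ PerfectOn E {i | ∃ k, E i k} := by
  let ψ := AlgEquiv.ofAlgHom (lin (-1)) (lin 1) (by simpa using lin_lin (-1)) (lin_lin 1)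
  have h1 : ∀ a b, ψ (y X a b) = X ![a, b, 0, 0] := fun a b => by simp [ψ, lin, y]; ring
  have h2 : ψ (y X 0 0 * y X 1 1 - y X 0 1 * y X 1 0) =
      X ![0, 0, 0, 0] * X ![1, 1, 0, 0] - X ![0, 1, 0, 0] * X ![1, 0, 0, 0] := by
    simp only [map_sub, map_mul, h1]
  have h3 : Prime (ψ (y X 0 0 * y X 1 1 - y X 0 1 * y X 1 0)) :=
    h2 ▸ prime_det (by decide) (by decide) (by decide) (by decide) (by decide)
  refine ⟨4, E0, fun _ => 2, fun _ _ h => h.1, fun _ => le_rfl, ⟨ψ, fun u => ?_, ?_⟩, fun h => ?_⟩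
  · simp only [ψ, lin, AlgEquiv.ofAlgHom_apply, aeval_X]
    refine (isHomogeneous_X _ _).add ?_
    split_ifs
    · rw [neg_one_smul]
      exact (((isHomogeneous_X _ _).add (isHomogeneous_X _ _)).add (isHomogeneous_X _ _)).neg
    · exact isHomogeneous_zero _ _ _
  · rw [eq_span _ rfl ((MulEquiv.prime_iff ψ).1 h3), Ideal.map_span, Set.image_singleton]
    refine ⟨(Ideal.span_singleton_prime h3.ne_zero).2 h3, _, ?_, rfl⟩
    rintro _ rfl
    exact ⟨_, _, by rw [h2, X, X, X, X, monomial_mul, monomial_mul, one_mul]⟩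
  · have := h 2 ⟨3, by decide⟩ 0 ⟨2, by decide⟩ 1 ⟨2, by decide⟩
    revert this
    decide

end Pool.Agent.Results.MP_52d0c2_ag.No
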